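import Pool.Graph.R_seed8.R384.X.Mq7

/-!
# The invariants over multiquadratic fields
-/

set_option autoImplicit false
set_option linter.unusedSectionVars false

namespace Pool.Agent.H519.AW.Hz

open Pool.Agent.R384 Pool.Agent.Y715.Red Pool.Agent.Y715.Nr Pool.Agent.W237.RK
open Pool.Agent.Y715.Gi (QB KK GK i₀_mem gk_fix)

open scoped Classical

variable {i₀ : QB} (hi : i₀ ^ 2 = i₀ - 2)

lemma no_sq_seven (r : ℚ) : r ^ 2 ≠ 7 := by
  intro h
  have h1 : Irrational (√((7 : ℕ) : ℝ)) := Nat.Prime.irrational_sqrt (by norm_num)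
  apply h1
  refine ⟨|r|, ?_⟩
  have h2 : (((|r| : ℚ)) : ℝ) ^ 2 = ((7 : ℕ) : ℝ) := by
    have h3 : (|r| : ℚ) ^ 2 = 7 := by rw [sq_abs, h]
    have h4 := congrArg (fun q : ℚ => (q : ℝ)) h3
    push_cast at h4 ⊢
    exact h4
  rw [← h2, Real.sqrt_sq]
  exact_mod_cast abs_nonneg r

include hi in
/-- `√-7` times a number is not a square in `K` -/
lemma not_fixed {x : QB} {N : ℤ} (hN : N ≠ 0) (hx : x ^ 2 = em hi (s7 * (N : OO))) :
    ¬ ∀ σ : GK i₀, σ x = x := by
  intro h
  have h1 : x ∈ KK i₀ := by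
    have h2 := InfiniteGalois.mem_range_algebraMap_iff_fixed (k := KK i₀) (K := QB) x
    obtain ⟨y, hy⟩ := h2.2 h
    rw [← hy]
    exact y.2
  obtain ⟨a, b, hab⟩ := KK_ex hi h1
  obtain ⟨c, hc⟩ := exists_conj hi
  have e1 : em hi (s7 * (N : OO)) = (2 * i₀ - 1) * N := by
    rw [map_mul, map_intCast, em_apply]
    unfold s7
    push_cast
    ring
  have hcx : c x = a + b * (1 - i₀) := by
    rw [hab, map_add, map_mul, hc, map_ratCast, map_ratCast]
  have h3 : (c x) ^ 2 = (2 * (1 - i₀) - 1) * N := by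
    rw [← map_pow, hx, e1, map_mul, map_sub, map_mul, hc, map_one, map_ofNat, map_intCast]
  have h4 : x * c x = ((a ^ 2 + a * b + 2 * b ^ 2 : ℚ) : QB) := by
    rw [hcx, hab]
    push_cast
    linear_combination (-(b : QB) ^ 2) * hi
  have h5 : (((a ^ 2 + a * b + 2 * b ^ 2 : ℚ)) : QB) ^ 2 = ((7 * N ^ 2 : ℚ) : QB) := by
    rw [← h4, mul_pow, h3, hx, e1]
    push_cast
    linear_combination (-4 * (N : QB) ^ 2) * hi
  have h6 : (a ^ 2 + a * b + 2 * b ^ 2) ^ 2 = 7 * (N : ℚ) ^ 2 := by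
    have h7 : (((a ^ 2 + a * b + 2 * b ^ 2) ^ 2 : ℚ) : QB) = ((7 * N ^ 2 : ℚ) : QB) := by
      rw [← h5]
      push_cast
      ring
    exact_mod_cast h7
  have hN' : (N : ℚ) ≠ 0 := by exact_mod_cast hN
  apply no_sq_seven ((a ^ 2 + a * b + 2 * b ^ 2) / N)
  rw [div_pow, h6]
  field_simp

lemma es_mul {s : QB} (hs0 : s ≠ 0) (hs : ∀ σ : GK i₀, σ s = s ∨ σ s = -s) (σ : GK i₀) :
    σ s = (((es hs0 hs σ : ℤˣ) : ℤ) : QB) * s := by
  rcases hs σ with h | h
  · rw [(es_one hs0 hs).2 h, h]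
    simp
  · rw [(es_neg hs0 hs).2 h, h]
    simp

section mq

variable {n : ℕ} {s : Fin n → QB} (hs0 : ∀ i, s i ≠ 0)
  (hs : ∀ (i) (σ : GK i₀), σ (s i) = s i ∨ σ (s i) = -s i)

include hs0 hs in
/-- a character which is trivial over the multiquadratic field -/
theorem dep : ∀ (A : Finset (Fin n)) (χ : GK i₀ →* ℤˣ), (∀ σ ∈ fixs s A, χ σ = 1) →
    ∃ T ⊆ A, ∀ σ, χ σ * ∏ i ∈ T, es (hs0 i) (hs i) σ = 1 := by
  intro A
  induction A using Finset.induction_on with
  | empty =>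
    intro χ h
    refine ⟨∅, Finset.Subset.refl _, fun σ => ?_⟩
    rw [Finset.prod_empty, mul_one]
    exact h σ fun i hi' => absurd hi' (Finset.notMem_empty i)
  | insert i A hiA ih =>
    intro χ h
    by_cases h1 : ∃ t ∈ fixs s A, es (hs0 i) (hs i) t = -1 ∧ χ t = -1
    · obtain ⟨t, ht, h2, h3⟩ := h1
      obtain ⟨T, hT, hT2⟩ := ih (χ * es (hs0 i) (hs i)) (by
        intro σ hσ
        show χ σ * es (hs0 i) (hs i) σ = 1
        rcases Int.units_eq_one_or (es (hs0 i) (hs i) σ) with h4 | h4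
        · rw [h4, mul_one]
          apply h
          intro j hj
          rcases Finset.mem_insert.1 hj with rfl | hj
          · exact (es_one (hs0 j) (hs j)).1 h4
          · exact hσ j hj
        · have h5 : χ (σ * t) = 1 := by
            apply h
            intro j hj
            rcases Finset.mem_insert.1 hj with rfl | hj
            · apply (es_one (hs0 j) (hs j)).1
              rw [map_mul, h4, h2]
              norm_num
            · rw [AlgEquiv.mul_apply, ht j hj, hσ j hj]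
          rw [map_mul, h3] at h5
          rw [h4]
          exact h5)
      refine ⟨insert i T, Finset.insert_subset_insert _ hT, fun σ => ?_⟩
      rw [Finset.prod_insert (fun h => hiA (hT h)), ← mul_assoc]
      exact hT2 σ
    · push Not at h1
      obtain ⟨T, hT, hT2⟩ := ih χ (by
        intro σ hσ
        rcases Int.units_eq_one_or (es (hs0 i) (hs i) σ) with h4 | h4
        · apply h
          intro j hj
          rcases Finset.mem_insert.1 hj with rfl | hj
          · exact (es_one (hs0 j) (hs j)).1 h4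
          · exact hσ j hj
        · exact (Int.units_eq_one_or (χ σ)).resolve_right (h1 σ hσ h4))
      exact ⟨T, hT.trans (Finset.subset_insert _ _), hT2⟩

/-- the root of `√-7 N` is not in the multiquadratic field -/
theorem exists_move {d : Fin n → ℤ} (hd : ∀ i, d i ≠ 0) (hE : ∀ i, s i ^ 2 = (d i : QB)) {u : QB}
    {N : ℤ} (hN : N ≠ 0) (hu : u ^ 2 = em hi (s7 * (N : OO))) :
    ∃ σ ∈ fixs s Finset.univ, (σ : GK i₀) u = -u := by
  have hs0 : ∀ i, s i ≠ 0 := by
    intro i h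
    have h1 := hE i
    rw [h, zero_pow two_ne_zero] at h1
    exact hd i (by exact_mod_cast h1.symm)
  have hem : ∀ i, s i ^ 2 = em hi ((d i : ℤ) : OO) := fun i => by rw [map_intCast]; exact hE i
  have hs : ∀ (i) (σ : GK i₀), σ (s i) = s i ∨ σ (s i) = -s i := fun i σ => rt_or hi (hem i) σ
  have hu0 : u ≠ 0 := by
    intro h0
    have h1 := not_fixed hi (x := u) hN hu
    apply h1
    intro σ
    rw [h0, map_zero]
  have hu' : ∀ σ : GK i₀, σ u = u ∨ σ u = -u := fun σ => rt_or hi hu σ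
  by_contra hcon
  push Not at hcon
  obtain ⟨T, -, hT⟩ := dep hs0 hs Finset.univ (es hu0 hu') (fun σ hσ =>
    (es_one hu0 hu').2 ((hu' σ).resolve_right (hcon σ hσ)))
  refine not_fixed hi (x := u * ∏ i ∈ T, s i) (N := N * ∏ i ∈ T, d i)
    (mul_ne_zero hN (Finset.prod_ne_zero_iff.2 fun i _ => hd i)) ?_ ?_
  · rw [mul_pow, hu, ← Finset.prod_pow]
    have e1 : (s7 * ((N * ∏ i ∈ T, d i : ℤ) : OO)) = (s7 * (N : OO)) * ∏ i ∈ T, ((d i : ℤ) : OO) := by
      push_cast
      ring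
    rw [e1, map_mul (em hi) (s7 * (N : OO)), map_prod]
    congr 1
    exact Finset.prod_congr rfl fun i _ => hem i
  · intro σ
    have h1 := hT σ
    rw [map_mul, map_prod, es_mul hu0 hu']
    have e1 : ∏ i ∈ T, σ (s i) = (((∏ i ∈ T, es (hs0 i) (hs i) σ : ℤˣ) : ℤ) : QB) *
        ∏ i ∈ T, s i := by
      push_cast
      rw [← Finset.prod_mul_distrib]
      exact Finset.prod_congr rfl fun i _ => es_mul (hs0 i) (hs i) σ
    rw [e1]
    have e2 : (((es hu0 hu' σ : ℤˣ) : ℤ) : QB) *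
        (((∏ i ∈ T, es (hs0 i) (hs i) σ : ℤˣ) : ℤ) : QB) = 1 := by
      have h2 := congrArg (fun u : ℤˣ => (((u : ℤˣ) : ℤ) : QB)) h1
      push_cast at h2 ⊢
      exact h2
    linear_combination (u * ∏ i ∈ T, s i) * e2

end mq

section ch

variable {κ κ' : GK i₀ →* ℤ_[2]ˣ} {D : OO} {r I : QB}

/-- the characters are not trivial -/
theorem move_odd (kd : KD hi κ κ' D r I) {k : ℤ} (hk : Odd k) {σ : GK i₀}
    (hσ : σ (I * r) = -(I * r)) : (κ ^ k * κ' ^ (1 - k)) σ ≠ 1 := by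
  intro h
  have h1 : κ σ ^ k * κ' σ ^ (1 - k) = 1 := h
  have h2 := congrArg ph h1
  rw [map_mul, map_zpow, map_zpow, map_one, kd.neg σ hσ] at h2
  obtain ⟨j, hj⟩ := hk
  have e1 : (1 - k) = 2 * (-j) := by omega
  rw [e1, zpow_even (sq_four _), mul_one, hj, zpow_add, zpow_even (sq_four _), one_mul,
    zpow_one] at h2
  exact absurd h2 (by decide)

theorem move_even (kd : KD hi κ κ' D r I) {k : ℤ} (hk : Even k) {σ : GK i₀}
    (hσ : σ r = -r) : (κ ^ k * κ' ^ (1 - k)) σ ≠ 1 := by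
  intro h
  have h1 : κ σ ^ k * κ' σ ^ (1 - k) = 1 := h
  have h2 := congrArg ph h1
  rw [map_mul, map_zpow, map_zpow, map_one, kd.neg' σ hσ] at h2
  obtain ⟨j, hj⟩ := hk
  have e1 : (1 - k) = 2 * (-j) + 1 := by omega
  have e2 : k = 2 * j := by omega
  rw [e1, zpow_add, zpow_even (sq_four _), one_mul, zpow_one, e2, zpow_even (sq_four _),
    one_mul] at h2
  exact absurd h2 (by decide)

end ch

end Pool.Agent.H519.AW.Hz
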